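import Pool.Agent.Lib.MP_d57abb_nt.TS.FrM

/-!
# JOB PerK (about 90 lines): frames with few divisors

* `td_mul`: `ff k = (nm v).natAbs (nm w).natAbs` (as in `aa_mul`, `TZ/Supp.lean`, from `kk_eq`), `Nat.divisors_mul` (`divisors (m * n) = divisors m * divisors n`, `open Pointwise`) and `Finset.card_mul_le`.
* `per_k`: if the set is empty the bound is trivial; otherwise one of its members shows `|divisors (ff k)| ≤ T²` (`td_mul`).  The map `x ↦ (nm x.1).natAbs` from the set to the divisors of `ff k` is injective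
  (`div_inj` (Div); `nm x.1 > 0`: `(tp_of_Qd h).nm_pos`).
-/

namespace Pool.Agent.Lib.MP_d57abb_nt.TS

open Finset Pool.Agent.Lib.MP_d57abb_nt Pool.Agent.Lib.MP_d57abb_nt.TA Pool.Agent.Lib.MP_d57abb_nt.TZ

open Pointwise in
private theorem PerK_card_mul (m n : ℕ) : (m * n).divisors.card ≤ m.divisors.card * n.divisors.card := by
  rw [Nat.divisors_mul]
  exact Finset.card_mul_le

theorem td_mul {v w : ℤ × ℤ} (hv : Qd v) (hw : Qd w) (h : dt v w = 1) {k : ℕ} (hk : kk v w = k) :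
    (ff k).divisors.card ≤ td v * td w := by
  have h1 := (tp_of_Qd hv).nm_pos
  have h2 := (tp_of_Qd hw).nm_pos
  have h3 := kk_eq h
  rw [hk] at h3
  have h4 : ff k = (nm v).natAbs * (nm w).natAbs := by
    rw [← Int.natAbs_mul, ← h3]
    unfold ff
    have h5 : ((k : ℤ) ^ 2 + 3 * k + 1) = ((k ^ 2 + 3 * k + 1 : ℕ) : ℤ) := by
      push_cast
      ring
    rw [h5, Int.natAbs_natCast]
  rw [h4]
  exact PerK_card_mul _ _

open Classical in
theorem per_k (α β : ℝ) (N k : ℕ) (T : ℝ) (hT : 1 ≤ T) :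
    (((GG α β N).filter (fun x => (kk x.1 x.2).toNat = k ∧ (td x.1 : ℝ) ≤ T ∧ (td x.2 : ℝ) ≤ T)).card : ℝ) ≤
      T ^ 2 := by
  set S := (GG α β N).filter (fun x => (kk x.1 x.2).toNat = k ∧ (td x.1 : ℝ) ≤ T ∧ (td x.2 : ℝ) ≤ T) with hS
  have hmem : ∀ x ∈ S, Qd x.1 ∧ Qd x.2 ∧ dt x.1 x.2 = 1 ∧ kk x.1 x.2 = k ∧ (td x.1 : ℝ) ≤ T ∧
      (td x.2 : ℝ) ≤ T := by
    intro x hx
    rw [hS, Finset.mem_filter, mem_GG] at hx
    obtain ⟨⟨h1, h2, h3, h4, -⟩, h5, h6, h7⟩ := hx
    refine ⟨h1, h2, h3, ?_, h6, h7⟩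
    rw [← h5]
    exact (Int.toNat_of_nonneg (by linarith)).symm
  rcases S.eq_empty_or_nonempty with h0 | ⟨x0, hx0⟩
  · rw [h0, Finset.card_empty]
    push_cast
    positivity
  · have hc : S.card ≤ (ff k).divisors.card := by
      refine Finset.card_le_card_of_injOn (fun x => (nm x.1).natAbs) ?_ ?_
      · intro x hx
        obtain ⟨h1, h2, h3, h4, -⟩ := hmem x (Finset.mem_coe.1 hx)
        rw [Finset.mem_coe, Nat.mem_divisors]
        constructor
        · have h5 := kk_eq h3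
          rw [h4] at h5
          have h6 : nm x.1 ∣ ((ff k : ℕ) : ℤ) := by
            refine ⟨nm x.2, ?_⟩
            unfold ff
            push_cast
            linarith
          exact Int.natCast_dvd_natCast.1 ((Int.natAbs_dvd).2 h6)
        · unfold ff
          omega
      · intro x hx y hy hxy
        obtain ⟨h1, h2, h3, h4, -⟩ := hmem x (Finset.mem_coe.1 hx)
        obtain ⟨k1, k2, k3, k4, -⟩ := hmem y (Finset.mem_coe.1 hy)
        have h5 : nm x.1 = nm y.1 := by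
          have hp := (tp_of_Qd h1).nm_pos
          have hq := (tp_of_Qd k1).nm_pos
          have hxy' : (nm x.1).natAbs = (nm y.1).natAbs := hxy
          omega
        obtain ⟨e1, e2⟩ := div_inj h1 h2 h3 k1 k2 k3 (h4.trans k4.symm) h5
        exact Prod.ext e1 e2
    obtain ⟨h1, h2, h3, h4, h5, h6⟩ := hmem x0 hx0
    have h7 := td_mul h1 h2 h3 h4
    have h8 : (S.card : ℝ) ≤ (td x0.1 : ℝ) * td x0.2 := by
      have h9 : S.card ≤ td x0.1 * td x0.2 := hc.trans h7
      have h10 : (S.card : ℝ) ≤ ((td x0.1 * td x0.2 : ℕ) : ℝ) := Nat.cast_le.mpr h9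
      rw [Nat.cast_mul] at h10
      exact h10
    calc (S.card : ℝ) ≤ (td x0.1 : ℝ) * td x0.2 := h8
      _ ≤ T * T := mul_le_mul h5 h6 (Nat.cast_nonneg _) (by linarith)
      _ = T ^ 2 := (sq T).symm

end Pool.Agent.Lib.MP_d57abb_nt.TS
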