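import Pool.Agent.Lib.MP_d57abb_nt.TS.Geo

/-!
# JOB ThinN (about 140 lines): few divisors in a short interval, natural scale

`thinN`: model `TZ/Thin.lean` (copy the proof of `Thin_t`, `Thin_card` as private lemmas; there `Thin_G` is our `GG`).  By `sum_wn_all` (FrM) the sum is `|GG α β N|`.  For `x = (v, w)` in it, `s = ll v`, `t = ll w`,
`q = kk v w`: (1) `s² ≤ nm v ≤ κ q ≤ κ N`, so `s ≤ S := ⌊√(κ N)⌋₊`.  (2) (`Thin_t`) `s / β ≤ t ≤ s / α + 2 κ²`.  (3) (`Thin_card`) for each `s` there are at most `κ² (β - α) s + 2 κ² + 1` frames (a frame is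
determined by `(s, t)`, `ll_inj`).  Hence `|GG| ≤ ∑_{1 ≤ s ≤ S} (κ² (β - α) s + 2 κ² + 1) ≤ κ² (β - α) S² + (2 κ² + 1) S ≤ κ³ (β - α) N + (2 κ² + 1) √κ √N`.
-/

namespace Pool.Agent.Lib.MP_d57abb_nt.TS

open Finset Pool.Agent.Lib.MP_d57abb_nt Pool.Agent.Lib.MP_d57abb_nt.TA Pool.Agent.Lib.MP_d57abb_nt.TZ

private theorem ThinN_t {κ α β : ℝ} (hκ : 1 ≤ κ) (hα : 1 / κ ≤ α) (hαβ : α ≤ β) (hβ : β ≤ κ)
    {v w : ℤ × ℤ} (hv : Qd v) (hw : Qd w) (h : dt v w = 1) (hq : 1 ≤ kk v w)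
    (h1 : α * kk v w ≤ nm v) (h2 : (nm v : ℝ) ≤ β * kk v w) :
    (ll v : ℝ) / β ≤ ll w ∧ (ll w : ℝ) ≤ ll v / α + 2 * κ ^ 2 ∧
      1 / (kk v w : ℝ) ≤ κ / (ll v : ℝ) ^ 2 ∧ (ll v : ℝ) ≤ κ * kk v w := by
  have hκ0 : 0 < κ := by linarith
  have hα0 : 0 < α := lt_of_lt_of_le (by positivity) hα
  have hβ0 : 0 < β := lt_of_lt_of_le hα0 hαβ
  have hακ : 1 ≤ α * κ := by rwa [div_le_iff₀ hκ0] at hα
  have hs : (1 : ℝ) ≤ ll v := by exact_mod_cast hv.ll_pos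
  have ht : (1 : ℝ) ≤ ll w := by exact_mod_cast hw.ll_pos
  have hqR : (1 : ℝ) ≤ kk v w := by exact_mod_cast hq
  have hn : (ll v : ℝ) ^ 2 ≤ nm v := by exact_mod_cast (nm_bounds hv).1
  have hr : (nm v : ℝ) * ll w = kk v w * ll v + v.2 + ll v := by exact_mod_cast ratio h
  have hv0 : (0 : ℝ) ≤ v.2 := by exact_mod_cast hv.2.1
  have hvs : (v.2 : ℝ) ≤ ll v := by
    have : v.2 ≤ ll v := by
      have := hv.1
      unfold ll
      omega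
    exact_mod_cast this
  generalize (ll v : ℝ) = S at hs hn hr hvs ⊢
  generalize (ll w : ℝ) = T at ht hr ⊢
  generalize (kk v w : ℝ) = Q at hqR hr h1 h2 ⊢
  generalize (nm v : ℝ) = M at hn hr h1 h2
  generalize (v.2 : ℝ) = Y at hr hv0 hvs
  have hQ0 : 0 < Q := by linarith
  have hSQ : S ^ 2 ≤ κ * Q := hn.trans (h2.trans (mul_le_mul_of_nonneg_right hβ hQ0.le))
  have hSS : S ≤ S ^ 2 := by nlinarith
  refine ⟨?_, ?_, ?_, hSS.trans hSQ⟩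
  · rw [div_le_iff₀ hβ0]
    have e1 : M * T ≤ β * Q * T := mul_le_mul_of_nonneg_right h2 (by linarith)
    have e2 : Q * S ≤ Q * (T * β) := by nlinarith
    exact le_of_mul_le_mul_left e2 hQ0
  · have e1 : α * Q * T ≤ M * T := mul_le_mul_of_nonneg_right h1 (by linarith)
    have e2 : S ≤ κ * Q := hSS.trans hSQ
    have e3 : κ * Q ≤ α * Q * κ ^ 2 := by
      have : 1 * (κ * Q) ≤ (α * κ) * (κ * Q) := mul_le_mul_of_nonneg_right hακ (by positivity)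
      calc κ * Q = 1 * (κ * Q) := by ring
        _ ≤ (α * κ) * (κ * Q) := this
        _ = α * Q * κ ^ 2 := by ring
    have e4 : α * Q * (S / α + 2 * κ ^ 2) = Q * S + 2 * (α * Q * κ ^ 2) := by
      field_simp
    have e5 : α * Q * T ≤ α * Q * (S / α + 2 * κ ^ 2) := by
      rw [e4]
      linarith
    exact le_of_mul_le_mul_left e5 (by positivity)
  · rw [div_le_div_iff₀ hQ0 (by positivity)]
    linarith

private theorem ThinN_card {κ α β : ℝ} (hκ : 1 ≤ κ) (hα : 1 / κ ≤ α) (hαβ : α ≤ β) (hβ : β ≤ κ)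
    (N s : ℕ) (hs : 1 ≤ s) :
    (((GG α β N).filter (fun x => (ll x.1).toNat = s)).card : ℝ) ≤
      κ ^ 2 * (β - α) * s + (2 * κ ^ 2 + 1) := by
  classical
  have hκ0 : 0 < κ := by linarith
  have hα0 : 0 < α := lt_of_lt_of_le (by positivity) hα
  have hβ0 : 0 < β := lt_of_lt_of_le hα0 hαβ
  have hακ : 1 ≤ α * κ := by rwa [div_le_iff₀ hκ0] at hα
  have hβκ : 1 ≤ β * κ := hακ.trans (mul_le_mul_of_nonneg_right hαβ hκ0.le)
  have hsR : (0 : ℝ) < s := by exact_mod_cast hs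
  have hmem : ∀ x ∈ (GG α β N).filter (fun x => (ll x.1).toNat = s),
      Qd x.1 ∧ Qd x.2 ∧ dt x.1 x.2 = 1 ∧ 1 ≤ kk x.1 x.2 ∧ α * kk x.1 x.2 ≤ nm x.1 ∧
        (nm x.1 : ℝ) ≤ β * kk x.1 x.2 ∧ ll x.1 = s := by
    intro x hx
    obtain ⟨hx1, hx2⟩ := mem_filter.1 hx
    obtain ⟨hx3, ⟨h1, h2⟩, h3, h4⟩ := mem_filter.1 hx1
    obtain ⟨h5, h6, h7, -⟩ := mem_pr1.1 hx3
    exact ⟨h5, h6, h7, h1, h3, h4, by omega⟩
  have hle : ((GG α β N).filter (fun x => (ll x.1).toNat = s)).card ≤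
      (Icc ⌈(s : ℝ) / β⌉ ⌊(s : ℝ) / α + 2 * κ ^ 2⌋).card := by
    refine Finset.card_le_card_of_injOn (fun x => ll x.2) ?_ ?_
    · intro x hx
      obtain ⟨a1, a2, a3, a4, a5, a6, a7⟩ := hmem x hx
      obtain ⟨b1, b2, -, -⟩ := ThinN_t hκ hα hαβ hβ a1 a2 a3 a4 a5 a6
      have a8 : (ll x.1 : ℝ) = s := by rw [a7]; push_cast; rfl
      rw [a8] at b1 b2
      rw [Finset.mem_coe, mem_Icc]
      exact ⟨Int.ceil_le.2 b1, Int.le_floor.2 b2⟩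
    · intro x hx y hy hxy
      obtain ⟨a1, a2, a3, a4, a5, a6, a7⟩ := hmem x hx
      obtain ⟨c1, c2, c3, c4, c5, c6, c7⟩ := hmem y hy
      obtain ⟨e1, e2⟩ := ll_inj a1 a2 a3 c1 c2 c3 (a7.trans c7.symm) hxy
      exact Prod.ext e1 e2
  have hcard : ((Icc ⌈(s : ℝ) / β⌉ ⌊(s : ℝ) / α + 2 * κ ^ 2⌋).card : ℝ) ≤
      (s : ℝ) / α + 2 * κ ^ 2 - s / β + 1 := by
    rw [Int.card_Icc]
    have h1 : (0 : ℝ) ≤ (s : ℝ) / α + 2 * κ ^ 2 - s / β + 1 := by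
      have : (s : ℝ) / β ≤ s / α := div_le_div_of_nonneg_left hsR.le hα0 hαβ
      have h3 : 0 ≤ 2 * κ ^ 2 := by positivity
      linarith
    have h2 : (((⌊(s : ℝ) / α + 2 * κ ^ 2⌋ + 1 - ⌈(s : ℝ) / β⌉).toNat : ℤ) : ℝ) ≤
        (s : ℝ) / α + 2 * κ ^ 2 - s / β + 1 := by
      rw [Int.toNat_eq_max]
      push_cast
      refine max_le ?_ h1
      have h3 := Int.floor_le ((s : ℝ) / α + 2 * κ ^ 2)
      have h4 := Int.le_ceil ((s : ℝ) / β)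
      linarith
    exact_mod_cast h2
  have hfrac : (s : ℝ) / α - s / β ≤ κ ^ 2 * (β - α) * s := by
    have h1 : (s : ℝ) / α - s / β = (β - α) * s / (α * β) := by
      field_simp
    rw [h1, div_le_iff₀ (by positivity)]
    have h2 : 1 ≤ (α * κ) * (β * κ) := one_le_mul_of_one_le_of_one_le hακ hβκ
    have h3 : 0 ≤ (β - α) * s := mul_nonneg (by linarith) hsR.le
    calc (β - α) * s = (β - α) * s * 1 := by ring
      _ ≤ (β - α) * s * ((α * κ) * (β * κ)) := mul_le_mul_of_nonneg_left h2 h3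
      _ = κ ^ 2 * (β - α) * s * (α * β) := by ring
  have h5 : (((GG α β N).filter (fun x => (ll x.1).toNat = s)).card : ℝ) ≤
      ((Icc ⌈(s : ℝ) / β⌉ ⌊(s : ℝ) / α + 2 * κ ^ 2⌋).card : ℝ) := by exact_mod_cast hle
  linarith

theorem thinN (κ : ℝ) (hκ : 1 ≤ κ) : ∃ C C' : ℝ, 0 < C ∧ 0 < C' ∧ ∀ α β : ℝ, 1 / κ ≤ α → α ≤ β → β ≤ κ →
    ∀ N : ℕ, ∑ k ∈ Icc 1 N, (wn α β k : ℝ) ≤ C * (β - α) * N + C' * √N := by
  classical
  have hκ0 : 0 < κ := by linarith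
  refine ⟨κ ^ 3, (2 * κ ^ 2 + 1) * √κ, by positivity, by positivity, ?_⟩
  intro α β hα hαβ hβ N
  have hα0 : 0 < α := lt_of_lt_of_le (by positivity) hα
  have hβα : 0 ≤ β - α := by linarith
  have hN0 : (0 : ℝ) ≤ N := Nat.cast_nonneg N
  obtain ⟨S, hS⟩ : ∃ S, S = ⌊√(κ * N)⌋₊ := ⟨_, rfl⟩
  have hSle : (S : ℝ) ≤ √(κ * N) := by
    rw [hS]
    exact Nat.floor_le (Real.sqrt_nonneg _)
  have hmaps : ∀ x ∈ GG α β N, (ll x.1).toNat ∈ Icc 1 S := by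
    intro x hx
    obtain ⟨hx3, ⟨h1, h2⟩, h3, h4⟩ := mem_filter.1 hx
    obtain ⟨h5, h6, h7, -⟩ := mem_pr1.1 hx3
    have h8 := h5.ll_pos
    rw [mem_Icc]
    refine ⟨by omega, ?_⟩
    rw [hS]
    refine Nat.le_floor ?_
    have h9 : (((ll x.1).toNat : ℕ) : ℝ) = ll x.1 := by
      have : (((ll x.1).toNat : ℕ) : ℤ) = ll x.1 := Int.toNat_of_nonneg h8.le
      exact_mod_cast this
    rw [h9]
    have h10 : (kk x.1 x.2 : ℝ) ≤ N := by exact_mod_cast h2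
    have h11 : (ll x.1 : ℝ) ^ 2 ≤ nm x.1 := by exact_mod_cast (nm_bounds h5).1
    have hq0 : (0 : ℝ) ≤ kk x.1 x.2 := by
      have : (1 : ℝ) ≤ kk x.1 x.2 := by exact_mod_cast h1
      linarith
    refine Real.le_sqrt_of_sq_le ?_
    calc (ll x.1 : ℝ) ^ 2 ≤ nm x.1 := h11
      _ ≤ β * kk x.1 x.2 := h4
      _ ≤ κ * kk x.1 x.2 := mul_le_mul_of_nonneg_right hβ hq0
      _ ≤ κ * N := mul_le_mul_of_nonneg_left h10 hκ0.le
  have hsum : ∑ k ∈ Icc 1 N, (wn α β k : ℝ) = ((GG α β N).card : ℝ) := by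
    exact_mod_cast congrArg (fun n : ℕ => (n : ℝ)) (sum_wn_all α β N)
  have hfib : ((GG α β N).card : ℝ) =
      ∑ s ∈ Icc 1 S, (((GG α β N).filter (fun x => (ll x.1).toNat = s)).card : ℝ) := by
    exact_mod_cast congrArg (fun n : ℕ => (n : ℝ)) (Finset.card_eq_sum_card_fiberwise hmaps)
  rw [hsum, hfib]
  have h1 : ∑ s ∈ Icc 1 S, (((GG α β N).filter (fun x => (ll x.1).toNat = s)).card : ℝ) ≤
      ∑ s ∈ Icc 1 S, (κ ^ 2 * (β - α) * S + (2 * κ ^ 2 + 1)) := by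
    refine sum_le_sum fun s hs => ?_
    obtain ⟨hs1, hs2⟩ := mem_Icc.1 hs
    refine (ThinN_card hκ hα hαβ hβ N s hs1).trans ?_
    have h2 : (s : ℝ) ≤ S := by exact_mod_cast hs2
    have h3 := mul_le_mul_of_nonneg_left h2 (show 0 ≤ κ ^ 2 * (β - α) by positivity)
    linarith
  refine h1.trans ?_
  rw [sum_const, Nat.card_Icc, nsmul_eq_mul, Nat.add_sub_cancel]
  have hS2 : (S : ℝ) * S ≤ κ * N := by
    calc (S : ℝ) * S ≤ √(κ * N) * √(κ * N) :=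
          mul_le_mul hSle hSle (Nat.cast_nonneg _) (Real.sqrt_nonneg _)
      _ = κ * N := Real.mul_self_sqrt (by positivity)
  have h4 : κ ^ 2 * (β - α) * (S * S) ≤ κ ^ 2 * (β - α) * (κ * N) :=
    mul_le_mul_of_nonneg_left hS2 (by positivity)
  have h5 : (2 * κ ^ 2 + 1) * (S : ℝ) ≤ (2 * κ ^ 2 + 1) * (√κ * √N) := by
    rw [← Real.sqrt_mul hκ0.le]
    exact mul_le_mul_of_nonneg_left hSle (by positivity)
  calc (S : ℝ) * (κ ^ 2 * (β - α) * S + (2 * κ ^ 2 + 1))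
      = κ ^ 2 * (β - α) * (S * S) + (2 * κ ^ 2 + 1) * S := by ring
    _ ≤ κ ^ 2 * (β - α) * (κ * N) + (2 * κ ^ 2 + 1) * (√κ * √N) := add_le_add h4 h5
    _ = κ ^ 3 * (β - α) * N + (2 * κ ^ 2 + 1) * √κ * √N := by ring

end Pool.Agent.Lib.MP_d57abb_nt.TS
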