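import Pool.Agent.Lib.MP_d57abb_nt.TS.FrM

/-!
# JOB Geo (about 120 lines): sizes of the frames

Let `x = (v, w) ∈ GG (1/c) c N`, `q = kk v w ≥ 1`, `s = ll v`, `t = ll w`.  `nm_bounds` (TA/Cone): `s² ≤ nm v ≤ (5/4) s²`, and the same for `w`.  `kk_eq` (Basic): `nm v nm w = q² + 3 q + 1 ≤ 5 q²`.
* `geo`: `q / c ≤ nm v ≤ c q`.  So `nm w ≤ 5 q² / nm v ≤ 5 c q`, and `nm w ≥ q² / nm v ≥ q / c`.
  `s² ≤ nm v ≤ c q ≤ c N`; `t² ≤ nm w ≤ 5 c q ≤ 5 c N`; `t² ≤ nm w ≤ 5 c q ≤ 5 c² nm v ≤ (25/4) c² s²`; `s² ≤ nm v ≤ c q ≤ c² nm w ≤ (5/4) c² t² ≤ (25/4) c² t²`.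
* `mass_le`: `tc_wn`, `sum_wn_all`: the sum is `|GG (1/c) c N|`, which is at most `P Q` with `P = ⌊√(c N)⌋₊`, `Q = ⌊√(5 c N)⌋₊` (`card_frames_le` (Size); `GG ⊆` that filter by `geo`), and
  `P Q ≤ √(c N) √(5 c N) = √5 c N ≤ 3 c N`.
-/

namespace Pool.Agent.Lib.MP_d57abb_nt.TS

open Finset Pool.Agent.Lib.MP_d57abb_nt Pool.Agent.Lib.MP_d57abb_nt.TA Pool.Agent.Lib.MP_d57abb_nt.TZ

private theorem Geo_real {c n n' q s t M : ℝ} (hc : 1 ≤ c) (hs : 0 < s) (ht : 0 < t)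
    (h1 : s ^ 2 ≤ n) (h2 : 4 * n ≤ 5 * s ^ 2) (h3 : t ^ 2 ≤ n') (h4 : 4 * n' ≤ 5 * t ^ 2)
    (hq : 1 ≤ q) (hn : q ^ 2 + 3 * q + 1 = n * n') (h5 : 1 / c * q ≤ n) (h6 : n ≤ c * q)
    (hqM : q ≤ M) :
    s ^ 2 ≤ c * M ∧ t ^ 2 ≤ 5 * c * M ∧ t ≤ 5 / 2 * c * s ∧ s ≤ 5 / 2 * c * t := by
  have hc0 : 0 < c := by linarith
  have hq0 : 0 < q := by linarith
  have hs2 : 0 < s ^ 2 := by positivity
  have ht2 : 0 < t ^ 2 := by positivity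
  have hn0 : 0 < n := by linarith
  have hn0' : 0 < n' := by linarith
  have h7 : q ≤ c * n := by
    have h8 := mul_le_mul_of_nonneg_left h5 hc0.le
    have h9 : c * (1 / c * q) = q := by field_simp
    rw [h9] at h8
    exact h8
  have hup : n * n' ≤ 5 * q ^ 2 := by nlinarith
  have hlo : q ^ 2 ≤ n * n' := by nlinarith
  have h8 : n' ≤ 5 * c * q := by
    have h9 : n * n' ≤ n * (5 * c * q) := by
      calc n * n' ≤ 5 * q ^ 2 := hup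
        _ = 5 * q * q := by ring
        _ ≤ 5 * q * (c * n) := mul_le_mul_of_nonneg_left h7 (by positivity)
        _ = n * (5 * c * q) := by ring
    exact le_of_mul_le_mul_left h9 hn0
  have h9 : q ≤ c * n' := by
    have h10 : q * q ≤ q * (c * n') := by
      calc q * q = q ^ 2 := by ring
        _ ≤ n * n' := hlo
        _ ≤ (c * q) * n' := mul_le_mul_of_nonneg_right h6 hn0'.le
        _ = q * (c * n') := by ring
    exact le_of_mul_le_mul_left h10 hq0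
  have hcq : c * q ≤ c * M := mul_le_mul_of_nonneg_left hqM hc0.le
  refine ⟨by linarith, by nlinarith, ?_, ?_⟩
  · have h10 : t ^ 2 ≤ (5 / 2 * c * s) ^ 2 := by
      calc t ^ 2 ≤ 5 * c * q := h3.trans h8
        _ ≤ 5 * c * (c * n) := mul_le_mul_of_nonneg_left h7 (by positivity)
        _ = (5 * c ^ 2 / 4) * (4 * n) := by ring
        _ ≤ (5 * c ^ 2 / 4) * (5 * s ^ 2) := mul_le_mul_of_nonneg_left h2 (by positivity)
        _ = (5 / 2 * c * s) ^ 2 := by ring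
    exact (sq_le_sq₀ ht.le (by positivity)).mp h10
  · have h10 : s ^ 2 ≤ (5 / 2 * c * t) ^ 2 := by
      calc s ^ 2 ≤ c * q := h1.trans h6
        _ ≤ c * (c * n') := mul_le_mul_of_nonneg_left h9 hc0.le
        _ = (c ^ 2 / 4) * (4 * n') := by ring
        _ ≤ (c ^ 2 / 4) * (5 * t ^ 2) := mul_le_mul_of_nonneg_left h4 (by positivity)
        _ ≤ (25 * c ^ 2 / 4) * t ^ 2 := by
            have : 0 ≤ c ^ 2 * t ^ 2 := by positivity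
            linarith
        _ = (5 / 2 * c * t) ^ 2 := by ring
    exact (sq_le_sq₀ hs.le (by positivity)).mp h10

theorem geo {c : ℝ} (hc : 1 ≤ c) {N : ℕ} {x : (ℤ × ℤ) × (ℤ × ℤ)} (hx : x ∈ GG (1 / c) c N) :
    (ll x.1 : ℝ) ^ 2 ≤ c * N ∧ (ll x.2 : ℝ) ^ 2 ≤ 5 * c * N ∧
      (ll x.2 : ℝ) ≤ 5 / 2 * c * ll x.1 ∧ (ll x.1 : ℝ) ≤ 5 / 2 * c * ll x.2 := by
  rw [mem_GG] at hx
  obtain ⟨hv, hw, hd, hk1, hkN, h5, h6⟩ := hx
  have hs := hv.ll_pos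
  have ht := hw.ll_pos
  obtain ⟨a1, a2⟩ := nm_bounds hv
  obtain ⟨b1, b2⟩ := nm_bounds hw
  have hk := kk_eq hd
  exact Geo_real (n' := (nm x.2 : ℝ)) hc (by exact_mod_cast hs) (by exact_mod_cast ht) (by exact_mod_cast a1)
    (by exact_mod_cast a2) (by exact_mod_cast b1) (by exact_mod_cast b2) (by exact_mod_cast hk1)
    (by exact_mod_cast hk) h5 h6 (by exact_mod_cast hkN)

theorem mass_le (c : ℝ) (hc : 1 ≤ c) (N : ℕ) : ∑ k ∈ Icc 1 N, (tc c k : ℝ) ≤ 3 * c * N := by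
  have hc0 : 0 < c := by linarith
  have e1 : ∑ k ∈ Icc 1 N, (tc c k : ℝ) = ((GG (1 / c) c N).card : ℝ) := by
    rw [← sum_wn_all, Nat.cast_sum]
    refine Finset.sum_congr rfl fun k _ => ?_
    rw [tc_wn c hc0 k]
  rw [e1]
  have hN0 : (0 : ℝ) ≤ c * N := by positivity
  have hN1 : (0 : ℝ) ≤ 5 * c * N := by positivity
  have hsub : GG (1 / c) c N ⊆ (pr (N + 1) 1).filter
      (fun x => ll x.1 ≤ (⌊√(c * N)⌋₊ : ℕ) ∧ ll x.2 ≤ (⌊√(5 * c * N)⌋₊ : ℕ)) := by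
    intro x hx
    obtain ⟨g1, g2, -, -⟩ := geo hc hx
    have hx2 := mem_GG.mp hx
    have hs := hx2.1.ll_pos
    have ht := hx2.2.1.ll_pos
    rw [mem_filter]
    refine ⟨(mem_filter.mp hx).1, ?_, ?_⟩
    · have h1 : (ll x.1 : ℝ) ≤ √(c * N) := Real.le_sqrt_of_sq_le g1
      have h2 : (((ll x.1).toNat : ℕ) : ℤ) = ll x.1 := Int.toNat_of_nonneg hs.le
      have h3 : (((ll x.1).toNat : ℕ) : ℝ) = (ll x.1 : ℝ) := by exact_mod_cast congrArg (Int.cast : ℤ → ℝ) h2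
      have h4 : (ll x.1).toNat ≤ ⌊√(c * N)⌋₊ := Nat.le_floor (by rw [h3]; exact h1)
      rw [← h2]
      exact_mod_cast h4
    · have h1 : (ll x.2 : ℝ) ≤ √(5 * c * N) := Real.le_sqrt_of_sq_le g2
      have h2 : (((ll x.2).toNat : ℕ) : ℤ) = ll x.2 := Int.toNat_of_nonneg ht.le
      have h3 : (((ll x.2).toNat : ℕ) : ℝ) = (ll x.2 : ℝ) := by exact_mod_cast congrArg (Int.cast : ℤ → ℝ) h2
      have h4 : (ll x.2).toNat ≤ ⌊√(5 * c * N)⌋₊ := Nat.le_floor (by rw [h3]; exact h1)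
      rw [← h2]
      exact_mod_cast h4
  have h1 := (Finset.card_le_card hsub).trans
    (card_frames_le (N + 1) ⌊√(c * N)⌋₊ ⌊√(5 * c * N)⌋₊)
  have h2 : ((GG (1 / c) c N).card : ℝ) ≤
      (⌊√(c * N)⌋₊ : ℝ) * (⌊√(5 * c * N)⌋₊ : ℝ) := by exact_mod_cast h1
  have h3 : (⌊√(c * N)⌋₊ : ℝ) ≤ √(c * N) := Nat.floor_le (Real.sqrt_nonneg _)
  have h4 : (⌊√(5 * c * N)⌋₊ : ℝ) ≤ √(5 * c * N) := Nat.floor_le (Real.sqrt_nonneg _)
  have h5 := mul_le_mul h3 h4 (Nat.cast_nonneg _) (Real.sqrt_nonneg _)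
  have h6 := Real.sq_sqrt hN0
  have h7 := Real.sq_sqrt hN1
  have h8 : 0 ≤ (√(c * N) - √(5 * c * N) / 2) ^ 2 := sq_nonneg _
  nlinarith

end Pool.Agent.Lib.MP_d57abb_nt.TS
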