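import Pool.Agent.Lib.MP_d57abb_nt.TS.Defs
import Pool.Agent.Lib.MP_d57abb_nt.Ev.TauS

/-!
# JOB Mk (about 100 lines): few vectors have a norm with many divisors

`Ev.tau_sum` (`Ev/TauS.lean`): `∑ z ∈ Pc Q, τ(nmN z) ≤ 32 Q² (1 + log (3 Q))`, where `Pc Q` is the set of coprime pairs of `[1, Q]²` and `nmN z = z.1² + 3 z.1 z.2 + z.2²` (natural numbers).
* `cop_of_dt`: `v.1 w.2 - w.1 v.2 = 1`.
* `vec_card`: the set `B` of vectors `v` of `Bx Q` (the box `[0, Q]²`) which are coprime and have `T < td v`, `T ≥ 1`: then `v.1, v.2 ≥ 1` (if `v.2 = 0` then `v.1 = 1` by coprimality, `nm v = 1`, `td v = 1`; the same for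
  `v.1 = 0`).  `v ↦ (v.1.toNat, v.2.toNat)` maps `B` injectively to `{z ∈ Pc Q : T < τ(nmN z)}`, and `(nm v).natAbs = nmN (v.1.toNat, v.2.toNat)`.  Markov: `T |B| ≤ ∑ z ∈ Pc Q, τ(nmN z)`.
-/

namespace Pool.Agent.Lib.MP_d57abb_nt.TS

open Finset Pool.Agent.Lib.MP_d57abb_nt Pool.Agent.Lib.MP_d57abb_nt.TA Pool.Agent.Lib.MP_d57abb_nt.TZ

private theorem Mk_td {v : ℤ × ℤ} (h1 : 0 ≤ v.1) (h2 : 0 ≤ v.2) (hc : IsCoprime v.1 v.2)
    (ht : 1 < td v) : 1 ≤ v.1 ∧ 1 ≤ v.2 := by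
  have hone : ∀ n : ℤ, nm v = n → n = 1 → False := by
    intro n hn h
    unfold td at ht
    rw [hn, h] at ht
    simp at ht
  constructor
  · by_contra h
    have h0 : v.1 = 0 := by omega
    rw [h0, isCoprime_zero_left] at hc
    have h3 : v.2 = 1 := by
      rcases Int.isUnit_iff.mp hc with h3 | h3
      · exact h3
      · omega
    refine hone _ rfl ?_
    unfold nm
    rw [h0, h3]
    norm_num
  · by_contra h
    have h0 : v.2 = 0 := by omega
    rw [h0, isCoprime_zero_right] at hc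
    have h3 : v.1 = 1 := by
      rcases Int.isUnit_iff.mp hc with h3 | h3
      · exact h3
      · omega
    refine hone _ rfl ?_
    unfold nm
    rw [h0, h3]
    norm_num

theorem cop_of_dt {v w : ℤ × ℤ} (h : dt v w = 1) : IsCoprime v.1 v.2 ∧ IsCoprime w.1 w.2 := by
  unfold dt at h
  exact ⟨⟨w.2, -w.1, by linear_combination h⟩, ⟨-v.2, v.1, by linear_combination h⟩⟩

open Classical in
theorem vec_card (Q : ℕ) (hQ : 1 ≤ Q) (T : ℝ) (hT : 1 ≤ T) :
    (((Bx Q).filter (fun v => IsCoprime v.1 v.2 ∧ T < td v)).card : ℝ) ≤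
      32 * (Q : ℝ) ^ 2 * (1 + Real.log (3 * Q)) / T := by
  have hT0 : 0 < T := by linarith
  have hmem : ∀ v ∈ (Bx Q).filter (fun v => IsCoprime v.1 v.2 ∧ T < td v),
      ∃ m n : ℕ, v = ((m : ℤ), (n : ℤ)) ∧ 1 ≤ m ∧ m ≤ Q ∧ 1 ≤ n ∧ n ≤ Q ∧ Nat.Coprime m n ∧
        T < ((Ev.nmN (m, n)).divisors.card : ℝ) := by
    intro v hv
    obtain ⟨hB, hc, ht⟩ := Finset.mem_filter.mp hv
    unfold Bx at hB
    obtain ⟨hB1, hB2⟩ := Finset.mem_product.mp hB
    rw [Finset.mem_Icc] at hB1 hB2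
    have ht1 : 1 < td v := by
      have h1 : (1 : ℝ) < (td v : ℝ) := by linarith
      exact_mod_cast h1
    obtain ⟨h1, h2⟩ := Mk_td hB1.1 hB2.1 hc ht1
    obtain ⟨m, hm⟩ := Int.eq_ofNat_of_zero_le hB1.1
    obtain ⟨n, hn⟩ := Int.eq_ofNat_of_zero_le hB2.1
    rw [hm, hn, Nat.isCoprime_iff_coprime] at hc
    refine ⟨m, n, Prod.ext hm hn, by omega, by omega, by omega, by omega, hc, ?_⟩
    have h3 : (nm v).natAbs = Ev.nmN (m, n) := by
      have h4 : nm v = ((Ev.nmN (m, n) : ℕ) : ℤ) := by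
        unfold nm Ev.nmN
        rw [hm, hn]
        push_cast
        ring
      rw [h4, Int.natAbs_natCast]
    unfold td at ht
    rw [h3] at ht
    exact ht
  have h1 : ((Bx Q).filter (fun v => IsCoprime v.1 v.2 ∧ T < td v)).card ≤
      ((Ev.Pc Q).filter (fun z => T < ((Ev.nmN z).divisors.card : ℝ))).card := by
    refine Finset.card_le_card_of_injOn (fun v => (v.1.toNat, v.2.toNat)) ?_ ?_
    · intro v hv
      obtain ⟨m, n, rfl, h2, h3, h4, h5, h6, h7⟩ := hmem v (Finset.mem_coe.mp hv)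
      refine Finset.mem_coe.mpr (Finset.mem_filter.mpr ⟨?_, ?_⟩)
      · unfold Ev.Pc
        exact Finset.mem_filter.mpr ⟨Finset.mem_product.mpr
          ⟨Finset.mem_Icc.mpr ⟨h2, h3⟩, Finset.mem_Icc.mpr ⟨h4, h5⟩⟩, h6⟩
      · exact h7
    · intro v hv w hw he
      obtain ⟨m, n, rfl, -⟩ := hmem v (Finset.mem_coe.mp hv)
      obtain ⟨m', n', rfl, -⟩ := hmem w (Finset.mem_coe.mp hw)
      have he' : ((m : ℕ), (n : ℕ)) = (m', n') := he
      obtain ⟨e1, e2⟩ := Prod.mk.inj he'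
      rw [e1, e2]
  have h2 : T * (((Ev.Pc Q).filter
      (fun z => T < ((Ev.nmN z).divisors.card : ℝ))).card : ℝ) ≤
      32 * (Q : ℝ) ^ 2 * (1 + Real.log (3 * Q)) := by
    refine le_trans ?_ (Ev.tau_sum Q hQ)
    calc T * (((Ev.Pc Q).filter (fun z => T < ((Ev.nmN z).divisors.card : ℝ))).card : ℝ) =
          ∑ z ∈ (Ev.Pc Q).filter (fun z => T < ((Ev.nmN z).divisors.card : ℝ)), T := by
          rw [Finset.sum_const, nsmul_eq_mul, mul_comm]
      _ ≤ ∑ z ∈ (Ev.Pc Q).filter (fun z => T < ((Ev.nmN z).divisors.card : ℝ)),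
            ((Ev.nmN z).divisors.card : ℝ) :=
          Finset.sum_le_sum fun z hz => (Finset.mem_filter.mp hz).2.le
      _ ≤ ∑ z ∈ Ev.Pc Q, ((Ev.nmN z).divisors.card : ℝ) :=
          Finset.sum_le_sum_of_subset_of_nonneg (Finset.filter_subset _ _)
            fun z _ _ => Nat.cast_nonneg _
  rw [le_div_iff₀ hT0]
  have h3 : (((Bx Q).filter (fun v => IsCoprime v.1 v.2 ∧ T < td v)).card : ℝ) ≤
      (((Ev.Pc Q).filter (fun z => T < ((Ev.nmN z).divisors.card : ℝ))).card : ℝ) := by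
    exact_mod_cast h1
  calc (((Bx Q).filter (fun v => IsCoprime v.1 v.2 ∧ T < td v)).card : ℝ) * T ≤
        (((Ev.Pc Q).filter (fun z => T < ((Ev.nmN z).divisors.card : ℝ))).card : ℝ) * T :=
        mul_le_mul_of_nonneg_right h3 hT0.le
    _ ≤ _ := by
        rw [mul_comm]
        exact h2

end Pool.Agent.Lib.MP_d57abb_nt.TS
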